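import Pool.Agent.L7h86.UP.Lines
import Pool.Agent.L7h86.GF.Main
import Pool.Agent.N823.LineGap

/-!
# Uniformity of the growth rates
-/

set_option autoImplicit false

namespace Pool.Agent.L7h86.UP

open Pool.Agent.H826R3.SM Pool.Agent.TH671.DU Pool.Agent.N86.SQ Pool.Agent.L7h86.GF
open Pool.Agent.N823 Pool.Agent.L7h86.PS
open MvPolynomial Filter
open scoped Topology

section maps

variable {U : Ultrafilter ℕ} {F : ℕ → Type} [∀ n, Field (F n)] {A B : ℕ → Type}
  [∀ n, CommRing (A n)] [∀ n, Algebra (F n) (A n)] [∀ n, CommRing (B n)]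
  [∀ n, Algebra (F n) (B n)]

/-- the ultraproduct of homomorphisms -/
noncomputable def umap (g : ∀ n, A n →ₐ[F n] B n) : UM U A →ₐ[UF U F] UM U B where
  toRingHom := Ideal.Quotient.lift (Null U A) ((ua U B).comp
    (RingHom.pi fun n => (g n).toRingHom.comp (Pi.evalRingHom A n))) (by
      intro f hf
      rw [RingHom.comp_apply, ← map_zero (ua U B), ua_eq]
      filter_upwards [hf] with n hn
      change g n (f n) = 0
      rw [hn, map_zero])
  commutes' := by
    intro z
    obtain ⟨f, rfl⟩ := uf_surj U F z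
    change ua U B (fun n => g n (algebraMap (F n) (A n) (f n))) =
      ua U B (fun n => algebraMap (F n) (B n) (f n))
    congr 1
    funext n
    exact (g n).commutes _

theorem umap_ua (g : ∀ n, A n →ₐ[F n] B n) (x : ∀ n, A n) :
    umap g (ua U A x) = ua U B fun n => g n (x n) := rfl

end maps

section pow

variable {U : Ultrafilter ℕ} {F : ℕ → Type} [∀ n, Field (F n)] {A : ℕ → Type}
  [∀ n, CommRing (A n)] [∀ n, Algebra (F n) (A n)] {d : ℕ}
  (c : ∀ n, Module.Basis (Fin d) (F n) (A n)) (m : ℕ)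

/-- the bases of the powers -/
noncomputable def pb (n : ℕ) :
    Module.Basis (Fin (Fintype.card (Fin m → Fin d))) (F n) (Pow (F n) (A n) m) :=
  (Basis.piTensorProduct (fun _ : Fin m => c n)).reindex (Fintype.equivFin _)

include c in
/-- **Powers of ultraproducts.** -/
theorem exists_pow_ultra : ∃ f : Pow (UF U F) (UM U A) m →ₐ[UF U F]
    UM U (fun n => Pow (F n) (A n) m), Function.Surjective f := by
  let g : Fin m → (UM U A →ₐ[UF U F] UM U (fun n => Pow (F n) (A n) m)) := fun i =>
    umap fun n => sg (F n) (A n) i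
  refine ⟨powLift g, ?_⟩
  rw [← AlgHom.range_eq_top, eq_top_iff]
  rintro x -
  rw [← (ub U (pb c m)).sum_repr x]
  refine Subalgebra.sum_mem _ fun i _ => Subalgebra.smul_mem _ ?_ _
  rw [ub_apply]
  set J := (Fintype.equivFin (Fin m → Fin d)).symm i with hJ
  have h1 : (fun n => pb c m n i) = ∏ l, (fun n => sg (F n) (A n) l (c n (J l))) := by
    funext n
    rw [Finset.prod_apply]
    unfold pb
    rw [Module.Basis.reindex_apply, Basis.piTensorProduct_apply, tprod_eq_prod_single]
  rw [h1, map_prod]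
  refine Subalgebra.prod_mem _ fun l _ => ?_
  have h2 : ua U (fun n => Pow (F n) (A n) m) (fun n => sg (F n) (A n) l (c n (J l))) =
      powLift g (sg (UF U F) (UM U A) l (ua U A fun n => c n (J l))) := by
    rw [powLift_single]
    rfl
  rw [h2]
  exact (AlgHom.mem_range _).2 ⟨_, rfl⟩

end pow

theorem local_of_basis {F E : Type} [Field F] [CommRing E] [Algebra F E] [Nontrivial E] {d : ℕ}
    (c : Module.Basis (Fin d) F E) (h : ∀ i, ∃ l : F, IsNilpotent (c i - algebraMap F E l)) :
    IsLocalRing E := by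
  choose lam hnil using h
  refine local_of_scalar (F := F) fun x => ?_
  refine ⟨∑ i, c.repr x i * lam i, ?_⟩
  have h1 : x - algebraMap F E (∑ i, c.repr x i * lam i) =
      ∑ i, c.repr x i • (c i - algebraMap F E (lam i)) := by
    conv_lhs => rw [← c.sum_repr x]
    rw [map_sum, ← Finset.sum_sub_distrib]
    refine Finset.sum_congr rfl fun i _ => ?_
    rw [c.sum_repr x, smul_sub, map_mul, Algebra.smul_def, Algebra.smul_def]
  rw [h1]
  have h2 : ∑ i, c.repr x i • (c i - algebraMap F E (lam i)) ∈ nilradical E :=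
    Ideal.sum_mem _ fun i _ => ((nilradical E).restrictScalars F).smul_mem _ (hnil i)
  exact h2

theorem pow_finrank_of_nilpotent {F E : Type} [Field F] [CommRing E] [Algebra F E]
    [Module.Finite F E] {x : E} (hx : IsNilpotent x) : x ^ Module.finrank F E = 0 := by
  obtain ⟨m, hm⟩ := hx
  have h1 := Module.End.ker_pow_le_ker_pow_finrank (LinearMap.mulLeft F x) m
  have h2 : (1 : E) ∈ LinearMap.ker (LinearMap.mulLeft F x ^ m) := by
    rw [LinearMap.mem_ker, LinearMap.pow_mulLeft, LinearMap.mulLeft_apply, hm, zero_mul]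
  have h3 := h1 h2
  rwa [LinearMap.mem_ker, LinearMap.pow_mulLeft, LinearMap.mulLeft_apply, mul_one] at h3

section loc

variable {U : Ultrafilter ℕ} {F : ℕ → Type} [∀ n, Field (F n)] [∀ n, IsAlgClosed (F n)]
  {A : ℕ → Type} [∀ n, CommRing (A n)] [∀ n, Algebra (F n) (A n)] {d : ℕ}

/-- the ultraproduct of local algebras of the same dimension is local -/
theorem local_ultra (c : ∀ n, Module.Basis (Fin d) (F n) (A n)) (hl : ∀ n, IsLocalRing (A n)) :
    Module.Finite (UF U F) (UM U A) ∧ IsLocalRing (UM U A) ∧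
      Module.finrank (UF U F) (UM U A) = d := by
  have hfin : Module.Finite (UF U F) (UM U A) := Module.Finite.of_basis (ub U c)
  have hd : Module.finrank (UF U F) (UM U A) = d := by
    rw [Module.finrank_eq_card_basis (ub U c), Fintype.card_fin]
  have hfn : ∀ n, Module.Finite (F n) (A n) := fun n => Module.Finite.of_basis (c n)
  have hdn : ∀ n, Module.finrank (F n) (A n) = d := fun n => by
    rw [Module.finrank_eq_card_basis (c n), Fintype.card_fin]
  have hd0 : 0 < d := by
    rw [← hdn 0]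
    exact Module.finrank_pos
  have hnt : Nontrivial (UM U A) := Module.nontrivial_of_finrank_pos (R := UF U F) (by
    rw [hd]
    exact hd0)
  refine ⟨hfin, local_of_basis (ub U c) fun i => ?_, hd⟩
  choose l hl' using fun n => scalar_of_local (F := F n) (c n i)
  refine ⟨uf U F l, d, ?_⟩
  rw [ub_apply, algebraMap_uf, ← map_sub, ← map_pow, ← map_zero (ua U A)]
  congr 1
  funext n
  have h1 := pow_finrank_of_nilpotent (F := F n) (hl' n)
  rw [hdn] at h1
  exact h1

end loc

/-- few lines for a small growth rate -/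
theorem exists_lines_lt' {k : Type} [Field k] [IsAlgClosed k] (A : Type) [CommRing A]
    [Algebra k A] [Module.Finite k A] [IsLocalRing A] (y : ℝ) (hy : rate k A < y) :
    ∃ n : ℕ, 1 ≤ n ∧ ((Module.finrank k A : ℝ) * n + 2) * lineNumber k (Pow k A n) < y ^ n := by
  set d : ℝ := (Module.finrank k A : ℝ) with hd
  have hd0 : (0 : ℝ) ≤ d := Nat.cast_nonneg _
  have hr1 := one_le_rate (k := k) A
  set r := rate k A with hr
  obtain ⟨C, hC, hG⟩ := lineNumber_growth (k := k) A ((y - r) / 2) (by linarith)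
  set z : ℝ := r + (y - r) / 2 with hz
  have hz0 : 0 < z := by linarith
  have hy0 : 0 < y := by linarith
  have hlt : z / y < 1 := (div_lt_one hy0).2 (by linarith)
  have hpos : 0 ≤ z / y := by positivity
  have ht : Tendsto (fun n : ℕ => (d * n + 2) * C * (z / y) ^ n) atTop (𝓝 0) := by
    have h1 := tendsto_self_mul_const_pow_of_lt_one hpos hlt
    have h2 := tendsto_pow_atTop_nhds_zero_of_lt_one hpos hlt
    have h3 := ((h1.const_mul (d * C)).add (h2.const_mul (2 * C)))
    rw [mul_zero, mul_zero, add_zero] at h3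
    refine h3.congr fun n => ?_
    ring
  obtain ⟨n, hn1, hn⟩ := ((ht.eventually_lt_const one_pos).and (eventually_ge_atTop 1)).exists
  refine ⟨n, hn, ?_⟩
  have hdn : (0 : ℝ) ≤ d * n + 2 := by positivity
  have hx : 0 < y ^ n := by positivity
  calc (d * n + 2) * lineNumber k (Pow k A n) ≤ (d * n + 2) * (C * z ^ n) :=
        mul_le_mul_of_nonneg_left (hG n) hdn
    _ = ((d * n + 2) * C * (z / y) ^ n) * y ^ n := by
        rw [div_pow]
        field_simp
    _ < 1 * y ^ n := mul_lt_mul_of_pos_right hn1 hx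
    _ = y ^ n := one_mul _

/-- Classes of fields whose ultraproducts have characteristic `p`. -/
def Compat (p : ℕ) (𝒦 : ℕ → ∀ (F : Type) [Field F], Prop) : Prop :=
  ∀ (F : ℕ → Type) [∀ n, Field (F n)], (∀ n, 𝒦 n (F n)) → CharP (UF (hyperfilter ℕ) F) p

/-- **Compactness.** -/
theorem compact {p : ℕ} (𝒦 : ℕ → ∀ (F : Type) [Field F], Prop) (h𝒦 : Compat p 𝒦) (d : ℕ)
    (x : ℝ)
    (H : ∀ (K : Type) [Field K] [IsAlgClosed K] [CharP K p] (A : Type) [CommRing A] [Algebra K A]
      [Module.Finite K A] [IsLocalRing A], Module.finrank K A = d → rate K A ≤ x)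
    (y : ℝ) (hy : x < y) : ∃ N : ℕ, ∀ (F : Type) [Field F] [IsAlgClosed F], 𝒦 N F →
      ∀ (A : Type) [CommRing A] [Algebra F A] [Module.Finite F A] [IsLocalRing A],
        Module.finrank F A = d → ∃ m : ℕ, 1 ≤ m ∧ m ≤ N ∧ (mdeg F (Pow F A m) : ℝ) ≤ y ^ m := by
  classical
  by_contra hcon
  push Not at hcon
  choose F fF cF hF A cA aA hfin hloc hd hbad using hcon
  let U := hyperfilter ℕ
  let c : ∀ n, Module.Basis (Fin d) (F n) (A n) := fun n =>
    Module.finBasisOfFinrankEq (F n) (A n) (hd n)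
  obtain ⟨h1, h2, h3⟩ := local_ultra (U := U) c hloc
  have hchar : CharP (UF U F) p := h𝒦 F hF
  have hr : rate (UF U F) (UM U A) ≤ x := H (UF U F) (UM U A) h3
  obtain ⟨m, hm, hlt⟩ := exists_lines_lt' (k := UF U F) (UM U A) y (lt_of_le_of_lt hr hy)
  rw [h3] at hlt
  have hL := inLines_lineNumber (k := UF U F) (UM U A) m
  set W := lineNumber (UF U F) (Pow (UF U F) (UM U A) m) with hW
  obtain ⟨f, hf⟩ := exists_pow_ultra (U := U) c m
  have hL' := hL.of_surjective f hf
  have hL'' := inLines_transfer (U := U) (fun n => pb c m n) hL'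
  have hge : ∀ᶠ n in (U : Filter ℕ), m ≤ n :=
    Nat.hyperfilter_le_atTop (eventually_ge_atTop m)
  obtain ⟨n, hn1, hn2⟩ := (hL''.and hge).exists
  have h4 := hbad n m hm hn2
  have h5 : lineNumber (F n) (Pow (F n) (A n) m) ≤ W :=
    Nat.sInf_le (s := {W : ℕ | InLines (F n) (Pow (F n) (A n) m) W}) hn1
  have h6 := mdeg_le_lines (k := F n) (A n) m
  rw [hd n] at h6
  have h7 : (mdeg (F n) (Pow (F n) (A n) m) : ℝ) ≤ ((d : ℝ) * m + 2) * W := by
    have h8 : mdeg (F n) (Pow (F n) (A n) m) ≤ (d * m + 2) * W :=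
      h6.trans (Nat.mul_le_mul_left _ h5)
    exact_mod_cast h8
  linarith

end Pool.Agent.L7h86.UP
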