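import Pool.Agent.L7h86.UP.Ultra
import Pool.Agent.L7h86.GF.Lines

/-!
# Transfer of unions of lines from ultraproducts
-/

set_option autoImplicit false

namespace Pool.Agent.L7h86.UP

open Pool.Agent.H826R3.SM Pool.Agent.TH671.DU Pool.Agent.N86.SQ Pool.Agent.L7h86.GF
open MvPolynomial Filter

theorem vanish_of_eq {k A σ : Type} [Field k] [CommRing A] [Algebra k A] (a : σ → A) (E : ℕ)
    (h : ∀ s : σ →₀ ℕ, s.degree = E → aeval a (monomial s (1 : k)) = 0) :
    ∀ s : σ →₀ ℕ, E ≤ s.degree → aeval a (monomial s (1 : k)) = 0 := by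
  classical
  have key : ∀ m : ℕ, ∀ s : σ →₀ ℕ, s.degree = E + m → aeval a (monomial s (1 : k)) = 0 := by
    intro m
    induction m with
    | zero =>
      intro s hs
      exact h s hs
    | succ m ih =>
      intro s hs
      have hs0 : s ≠ 0 := by
        rintro rfl
        rw [map_zero] at hs
        omega
      obtain ⟨v, hv⟩ := Finsupp.ne_iff.1 hs0
      have hv1 : Finsupp.single v 1 ≤ s := by
        rw [Finsupp.single_le_iff]
        rw [Finsupp.zero_apply] at hv
        omega
      have hs' : s = Finsupp.single v 1 + (s - Finsupp.single v 1) :=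
        (add_tsub_cancel_of_le hv1).symm
      have hdeg : (s - Finsupp.single v 1).degree = E + m := by
        have h2 := congrArg Finsupp.degree hs'
        rw [map_add, Finsupp.degree_single] at h2
        omega
      have h5 : monomial s (1 : k) = X v * monomial (s - Finsupp.single v 1) (1 : k) := by
        rw [X, monomial_mul, mul_one, ← hs']
      rw [h5, map_mul, ih _ hdeg, mul_zero]
  intro s hs
  obtain ⟨m, hm⟩ := Nat.exists_eq_add_of_le hs
  exact key m s hm

variable {U : Ultrafilter ℕ} {F : ℕ → Type} [∀ n, Field (F n)] {B : ℕ → Type}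
  [∀ n, CommRing (B n)] [∀ n, Algebra (F n) (B n)] {D : ℕ}

/-- **Transfer of unions of lines.** -/
theorem inLines_transfer (b : ∀ n, Module.Basis (Fin D) (F n) (B n)) {W : ℕ}
    (h : InLines (UF U F) (UM U B) W) : ∀ᶠ n in (U : Filter ℕ), InLines (F n) (B n) W := by
  classical
  obtain ⟨σ, hσ, a, p, ha, hgen, hM⟩ := h
  have hfσ := Fintype.ofFinite σ
  let bK := ub U b
  obtain ⟨E, hE⟩ := exists_vanish (k := UF U F) a ha
  choose c hc using lines_coeff bK a p hM
  have hsurj : ∀ i, ∃ G : MvPolynomial σ (UF U F), aeval a G = bK i := by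
    intro i
    have h1 : bK i ∈ Algebra.adjoin (UF U F) (Set.range a) := by rw [hgen]; trivial
    rw [Algebra.adjoin_range_eq_range_aeval] at h1
    exact h1
  choose G hG using hsurj
  choose a' ha' using fun v => ua_surj U B (a v)
  choose p' hp' using fun w v => uf_surj U F (p w v)
  choose c' hc' using fun e i w => uf_surj U F (c e i w)
  choose g' hg' using fun i s => uf_surj U F (coeff s (G i))
  -- monomials
  have hmonn : ∀ (n : ℕ) (s : σ →₀ ℕ), aeval (fun v => a' v n) (monomial s (1 : F n)) =
      ∏ v ∈ s.support, a' v n ^ s v := by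
    intro n s
    rw [aeval_monomial, map_one, one_mul, Finsupp.prod]
  have hmonK : ∀ s : σ →₀ ℕ, aeval a (monomial s (1 : UF U F)) =
      ua U B fun n => ∏ v ∈ s.support, a' v n ^ s v := by
    intro s
    rw [aeval_monomial, map_one, one_mul, Finsupp.prod]
    have h1 : (fun n => ∏ v ∈ s.support, a' v n ^ s v) = ∏ v ∈ s.support, a' v ^ s v := by
      funext n
      rw [Finset.prod_apply]
      rfl
    rw [h1, map_prod]
    refine Finset.prod_congr rfl fun v _ => ?_
    rw [map_pow, ha']
  have hevK : ∀ (w : Fin W) (s : σ →₀ ℕ), eval (p w) (monomial s (1 : UF U F)) =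
      uf U F fun n => ∏ v ∈ s.support, p' w v n ^ s v := by
    intro w s
    rw [eval_monomial, one_mul, Finsupp.prod]
    have h1 : (fun n => ∏ v ∈ s.support, p' w v n ^ s v) = ∏ v ∈ s.support, p' w v ^ s v := by
      funext n
      rw [Finset.prod_apply]
      rfl
    rw [h1, map_prod]
    refine Finset.prod_congr rfl fun v _ => ?_
    rw [map_pow, hp']
  -- the four conditions
  have c1 : ∀ᶠ n in (U : Filter ℕ), ∀ v, IsNilpotent (a' v n) := by
    rw [eventually_all]
    intro v
    obtain ⟨N, hN⟩ := ha v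
    rw [← ha', ← map_pow, ← map_zero (ua U B), ua_eq] at hN
    filter_upwards [hN] with n hn
    exact ⟨N, hn⟩
  have c2 : ∀ᶠ n in (U : Filter ℕ), ∀ s ∈ {s : σ →₀ ℕ | s.degree = E},
      ∏ v ∈ s.support, a' v n ^ s v = 0 := by
    rw [eventually_all_finite (Finsupp.finite_of_degree_eq E)]
    intro s hs
    have h1 := hE s (le_of_eq hs.symm)
    rw [hmonK, ← map_zero (ua U B), ua_eq] at h1
    exact h1
  have c3 : ∀ᶠ n in (U : Filter ℕ), ∀ s ∈ {s : σ →₀ ℕ | s.degree ≤ E}, ∀ i,
      (b n).repr (∏ v ∈ s.support, a' v n ^ s v) i =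
        ∑ w, c' s.degree i w n * ∏ v ∈ s.support, p' w v n ^ s v := by
    rw [eventually_all_finite (Finsupp.finite_of_degree_le E)]
    intro s _
    rw [eventually_all]
    intro i
    have h1 := hc s.degree i s rfl
    rw [hmonK, ub_repr] at h1
    have h2 : ∑ w, c s.degree i w * eval (p w) (monomial s (1 : UF U F)) =
        uf U F fun n => ∑ w, c' s.degree i w n * ∏ v ∈ s.support, p' w v n ^ s v := by
      have h3 : (fun n => ∑ w, c' s.degree i w n * ∏ v ∈ s.support, p' w v n ^ s v) =
          ∑ w, c' s.degree i w * (fun n => ∏ v ∈ s.support, p' w v n ^ s v) := by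
        funext n
        rw [Finset.sum_apply]
        rfl
      rw [h3, map_sum]
      refine Finset.sum_congr rfl fun w _ => ?_
      rw [map_mul, hc', hevK]
    rw [h2, uf_eq] at h1
    exact h1
  have c4 : ∀ᶠ n in (U : Filter ℕ), ∀ i,
      ∑ s ∈ (G i).support, g' i s n • ∏ v ∈ s.support, a' v n ^ s v = b n i := by
    rw [eventually_all]
    intro i
    have h1 := hG i
    have h2 : aeval a (G i) =
        ua U B fun n => ∑ s ∈ (G i).support, g' i s n • ∏ v ∈ s.support, a' v n ^ s v := by
      conv_lhs => rw [(G i).as_sum, map_sum]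
      have h3 : (fun n => ∑ s ∈ (G i).support, g' i s n • ∏ v ∈ s.support, a' v n ^ s v) =
          ∑ s ∈ (G i).support, (fun n => g' i s n • ∏ v ∈ s.support, a' v n ^ s v) := by
        funext n
        rw [Finset.sum_apply]
      rw [h3, map_sum]
      refine Finset.sum_congr rfl fun s _ => ?_
      rw [← uf_smul, hg', ← hmonK, ← map_smul, smul_monomial, smul_eq_mul, mul_one]
    rw [h2] at h1
    have h4 : bK i = ua U B fun n => b n i := ub_apply U b i
    rw [h4, ua_eq] at h1
    exact h1
  filter_upwards [c1, c2, c3, c4] with n h1 h2 h3 h4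
  refine ⟨σ, hσ, fun v => a' v n, fun w v => p' w v n, h1, ?_, fun M hM' =>
    lines_of_coeff (b n) _ _ E (vanish_of_eq _ E fun s hs => ?_) (fun e he i => ?_) M hM'⟩
  · rw [Algebra.adjoin_range_eq_range_aeval, eq_top_iff]
    rintro x -
    rw [← (b n).sum_repr x]
    refine Subalgebra.sum_mem _ fun i _ => Subalgebra.smul_mem _ ?_ _
    rw [← h4 i]
    refine Subalgebra.sum_mem _ fun s _ => Subalgebra.smul_mem _ ?_ _
    rw [← hmonn]
    exact (AlgHom.mem_range _).2 ⟨_, rfl⟩
  · rw [hmonn]
    exact h2 s hs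
  · refine ⟨fun w => c' e i w n, fun s hs => ?_⟩
    rw [hmonn, h3 s (by rw [hs]; exact he.le) i, hs]
    refine Finset.sum_congr rfl fun w _ => ?_
    rw [eval_monomial, one_mul, Finsupp.prod]

end Pool.Agent.L7h86.UP
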