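import Pool.Agent.L7h86.UP.Unif

/-!
# Uniform bounds: the results
-/

set_option autoImplicit false

namespace Pool.Agent.L7h86.UP

open Pool.Agent.H826R3.SM Pool.Agent.TH671.DU Pool.Agent.N86.SQ Pool.Agent.L7h86.GF
open Pool.Agent.N823 Pool.Agent.L7h86.PS Pool.Agent.R566.CV
open MvPolynomial Filter
open scoped Topology

/-- The growth rates of all nonempty finite schemes over `k` of degree at most `D` are at most
`deg ^ τ`. -/
def BAll (k : Type) [Field k] (τ : ℝ) (D : ℕ) : Prop :=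
  ∀ (A : Type) [CommRing A] [Algebra k A] [Module.Finite k A] [Nontrivial A],
    Module.finrank k A ≤ D → Bound k τ A

theorem bAll_one (k : Type) [Field k] [IsAlgClosed k] (D : ℕ) : BAll k 1 D ↔ QAll k D :=
  ⟨fun h A _ _ _ _ hA => bound_one.1 (h A hA), fun h A _ _ _ _ hA => bound_one.2 (h A hA)⟩

theorem bAll_iff_local (k : Type) [Field k] [IsAlgClosed k] {τ : ℝ} (hτ : 1 ≤ τ) (D : ℕ) :
    BAll k τ D ↔ ∀ d : ℕ, d ≤ D → ∀ (A : Type) [CommRing A] [Algebra k A] [Module.Finite k A]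
      [IsLocalRing A], Module.finrank k A = d → rate k A ≤ (d : ℝ) ^ τ := by
  constructor
  · intro h d hd A _ _ _ _ hA
    have h1 := h A (by omega)
    unfold Bound at h1
    rwa [hA] at h1
  · intro h
    have key : ∀ n : ℕ, ∀ (A : Type) [CommRing A] [Algebra k A] [Module.Finite k A]
        [Nontrivial A], Module.finrank k A = n → n ≤ D → Bound k τ A := by
      intro n
      induction n using Nat.strong_induction_on with
      | _ n ih =>
        intro A _ _ _ _ hn hD
        by_cases hloc : IsLocalRing A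
        · have h1 := h n hD A hn
          unfold Bound
          rw [hn]
          exact h1
        obtain ⟨B, B', _, _, _, _, hB1, hB2, hB'1, hB'2, ⟨F⟩, hs⟩ := exists_split (k := k) A hloc
        have hp1 : 0 < Module.finrank k B := Module.finrank_pos
        have hp2 : 0 < Module.finrank k B' := Module.finrank_pos
        exact bound_congr F.symm (bound_prod hτ (ih _ (by omega) B rfl (by omega))
          (ih _ (by omega) B' rfl (by omega)))
    intro A _ _ _ _ hA
    exact key _ A rfl hA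

theorem bAll_iff (k K : Type) [Field k] [IsAlgClosed k] [Field K] [IsAlgClosed K] [Algebra k K]
    {τ : ℝ} (hτ : 1 ≤ τ) (D : ℕ) : BAll k τ D ↔ BAll K τ D := by
  rw [bAll_iff_local k hτ, bAll_iff_local K hτ]
  exact forall_congr' fun d => forall_congr' fun _ => bounds_iff k K d _

theorem bAll_char (K L : Type) [Field K] [IsAlgClosed K] [Field L] [IsAlgClosed L] (p : ℕ)
    [CharP K p] [CharP L p] {τ : ℝ} (hτ : 1 ≤ τ) (D : ℕ) : BAll K τ D ↔ BAll L τ D := by
  rcases CharP.char_is_prime_or_zero K p with hp | rfl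
  · have : Fact p.Prime := ⟨hp⟩
    let _ : Algebra (ZMod p) K := ZMod.algebra K p
    let _ : Algebra (ZMod p) L := ZMod.algebra L p
    let _ : Algebra (AlgebraicClosure (ZMod p)) K :=
      (IsAlgClosed.lift : AlgebraicClosure (ZMod p) →ₐ[ZMod p] K).toRingHom.toAlgebra
    let _ : Algebra (AlgebraicClosure (ZMod p)) L :=
      (IsAlgClosed.lift : AlgebraicClosure (ZMod p) →ₐ[ZMod p] L).toRingHom.toAlgebra
    exact (bAll_iff (AlgebraicClosure (ZMod p)) K hτ D).symm.trans
      (bAll_iff (AlgebraicClosure (ZMod p)) L hτ D)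
  · have : CharZero K := CharP.charP_to_charZero K
    have : CharZero L := CharP.charP_to_charZero L
    have : Algebra.IsAlgebraic ℚ (AlgebraicClosure ℚ) := by
      have h := AlgebraicClosure.isAlgebraic ℚ
      convert h
      · rfl
      · exact Subsingleton.elim _ _
    let _ : Algebra (AlgebraicClosure ℚ) K :=
      (IsAlgClosed.lift : AlgebraicClosure ℚ →ₐ[ℚ] K).toRingHom.toAlgebra
    let _ : Algebra (AlgebraicClosure ℚ) L :=
      (IsAlgClosed.lift : AlgebraicClosure ℚ →ₐ[ℚ] L).toRingHom.toAlgebra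
    exact (bAll_iff (AlgebraicClosure ℚ) K hτ D).symm.trans
      (bAll_iff (AlgebraicClosure ℚ) L hτ D)

/-- the uniform bound over the fields of the class `𝒦 P` -/
theorem uniform_bAll {p : ℕ} (𝒦 : ℕ → ∀ (F : Type) [Field F], Prop) (h𝒦 : Compat p 𝒦)
    (hmono : ∀ (M N : ℕ) (F : Type) [Field F], M ≤ N → 𝒦 N F → 𝒦 M F)
    (K₀ : Type) [Field K₀] [IsAlgClosed K₀] [CharP K₀ p] {τ : ℝ} (hτ : 1 ≤ τ) (D : ℕ)
    (h : BAll K₀ τ D) (η : ℝ) (hη : 0 < η) :
    ∃ (P : ℕ) (C : ℝ), 0 ≤ C ∧ ∀ (F : Type) [Field F] [IsAlgClosed F], 𝒦 P F →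
      ∀ (A : Type) [CommRing A] [Algebra F A] [Module.Finite F A] [Nontrivial A],
        Module.finrank F A ≤ D → ∀ n : ℕ, (Module.finrank F A : ℝ) ^ n + defect F (Pow F A n) ≤
          C * ((1 + η) * (Module.finrank F A : ℝ) ^ τ) ^ n := by
  classical
  have H : ∀ (K : Type) [Field K] [IsAlgClosed K] [CharP K p] (A : Type) [CommRing A]
      [Algebra K A] [Module.Finite K A] [IsLocalRing A], Module.finrank K A ≤ D →
        rate K A ≤ (fun a : ℕ => (a : ℝ) ^ τ) (Module.finrank K A) := by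
    intro K _ _ _ A _ _ _ _ hA
    exact (bAll_char K₀ K p hτ D).1 h A hA
  have key : ∀ n : ℕ, ∃ (P : ℕ) (C : ℝ), 0 ≤ C ∧ (1 ≤ n → n ≤ D → ∀ (F : Type) [Field F]
      [IsAlgClosed F], 𝒦 P F → ∀ (A : Type) [CommRing A] [Algebra F A] [Module.Finite F A]
        [Nontrivial A], Module.finrank F A = n → ∀ m : ℕ, ∃ M : ℕ,
          (M : ℝ) ≤ C * ((1 + η) * (n : ℝ) ^ τ) ^ m ∧ Fam F (Pow F A m) M) := by
    intro n
    by_cases hn : 1 ≤ n ∧ n ≤ D
    · obtain ⟨P, C, hC, h1⟩ := uniform 𝒦 h𝒦 hmono (fun a : ℕ => (a : ℝ) ^ τ) (by simp)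
        (fun a b => by
          push_cast
          exact Real.add_rpow_le_rpow_add (by positivity) (by positivity) hτ) D H η hη n
        hn.1 hn.2
      exact ⟨P, C, hC, fun _ _ => h1⟩
    · exact ⟨0, 0, le_rfl, fun h1 h2 => absurd ⟨h1, h2⟩ hn⟩
  choose P C hC hPC using key
  refine ⟨∑ a ∈ Finset.range (D + 1), P a, ∑ a ∈ Finset.range (D + 1), C a,
    Finset.sum_nonneg fun a _ => hC a, fun F _ _ hF A _ _ _ _ hA n => ?_⟩
  have hpos : 1 ≤ Module.finrank F A := Module.finrank_pos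
  have hPle : P (Module.finrank F A) ≤ ∑ a ∈ Finset.range (D + 1), P a :=
    Finset.single_le_sum (f := P) (fun _ _ => Nat.zero_le _) (Finset.mem_range.2 (by omega))
  have hCle : C (Module.finrank F A) ≤ ∑ a ∈ Finset.range (D + 1), C a :=
    Finset.single_le_sum (f := C) (fun a _ => hC a) (Finset.mem_range.2 (by omega))
  obtain ⟨M, h1, h2⟩ := hPC _ hpos hA F (hmono _ _ F hPle hF) A rfl n
  have h3 := mdeg_le h2
  rw [← fadd F (Pow F A n), finrank_Pow'] at h3
  have h4 : (Module.finrank F A : ℝ) ^ n + defect F (Pow F A n) ≤ M := by exact_mod_cast h3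
  exact h4.trans (h1.trans (mul_le_mul_of_nonneg_right hCle (by positivity)))

theorem defect_of_finrank_one {F : Type} [Field F] [IsAlgClosed F] {A : Type} [CommRing A]
    [Algebra F A] [Module.Finite F A] (h : Module.finrank F A = 1) (n : ℕ) :
    defect F (Pow F A n) = 0 := by
  have h1 := mdeg_le (Growth.one_of_finrank (k := F) h n)
  have h2 := fadd F (Pow F A n)
  rw [finrank_Pow', h, one_pow] at h2
  omega

/-- from the exponential bound to the limit -/
theorem limit_of_bound {ε : ℝ} (hε : 0 < ε) {C : ℝ} (hC : 0 ≤ C) (θ : ℝ) (hθ : 0 < θ) :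
    ∃ n₀ : ℕ, ∀ n, n₀ ≤ n → ∀ (F : Type) [Field F] [IsAlgClosed F] (A : Type) [CommRing A]
      [Algebra F A] [Module.Finite F A] [Nontrivial A],
      ((Module.finrank F A : ℝ) ^ n + defect F (Pow F A n) ≤
        C * ((1 + ((2 : ℝ) ^ ε - 1) / 2) * (Module.finrank F A : ℝ) ^ (1 : ℝ)) ^ n) →
      (defect F (Pow F A n) : ℝ) ≤ θ * (Module.finrank F A : ℝ) ^ ((1 + ε) * (n : ℝ)) := by
  set η : ℝ := ((2 : ℝ) ^ ε - 1) / 2 with hη
  have h2 : (1 : ℝ) < 2 ^ ε := Real.one_lt_rpow (by norm_num) hε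
  have hη0 : 0 < η := by rw [hη]; linarith
  set q : ℝ := (1 + η) / 2 ^ ε with hq
  have hq0 : 0 ≤ q := by rw [hq]; positivity
  have hq1 : q < 1 := by
    rw [hq, div_lt_one (by linarith), hη]
    linarith
  have ht : Tendsto (fun n : ℕ => C * q ^ n) atTop (𝓝 0) := by
    have h3 := (tendsto_pow_atTop_nhds_zero_of_lt_one hq0 hq1).const_mul C
    rwa [mul_zero] at h3
  obtain ⟨n₀, hn₀⟩ := eventually_atTop.1 (ht.eventually_lt_const hθ)
  refine ⟨n₀, fun n hn F _ _ A _ _ _ _ hb => ?_⟩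
  have hpos : 0 < Module.finrank F A := Module.finrank_pos
  have hd0 : (0 : ℝ) < Module.finrank F A := by exact_mod_cast hpos
  rcases Nat.lt_or_ge 1 (Module.finrank F A) with hd | hd
  swap
  · rw [defect_of_finrank_one (by omega) n, Nat.cast_zero]
    positivity
  have hd2 : (2 : ℝ) ≤ Module.finrank F A := by exact_mod_cast hd
  rw [denom_eq']
  set d : ℝ := (Module.finrank F A : ℝ) with hdd
  have h4 : (1 + η) * d ^ (1 : ℝ) ≤ q * d ^ (1 + ε) := by
    rw [Real.rpow_one, Real.rpow_add hd0, Real.rpow_one, hq, div_mul_eq_mul_div, le_div_iff₀ (by linarith)]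
    have h5 : (2 : ℝ) ^ ε ≤ d ^ ε := Real.rpow_le_rpow (by norm_num) hd2 hε.le
    have h6 : 0 ≤ (1 + η) * d := by positivity
    nlinarith
  have h7 : (defect F (Pow F A n) : ℝ) ≤ C * ((1 + η) * d ^ (1 : ℝ)) ^ n := by
    have h8 : 0 ≤ d ^ n := by positivity
    linarith
  calc (defect F (Pow F A n) : ℝ) ≤ C * ((1 + η) * d ^ (1 : ℝ)) ^ n := h7
    _ ≤ C * (q * d ^ (1 + ε)) ^ n :=
        mul_le_mul_of_nonneg_left (pow_le_pow_left₀ (by positivity) h4 n) hC
    _ = (C * q ^ n) * (d ^ (1 + ε)) ^ n := by rw [mul_pow]; ring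
    _ ≤ θ * (d ^ (1 + ε)) ^ n :=
        mul_le_mul_of_nonneg_right (hn₀ n hn).le (by positivity)

theorem compat_char (p : ℕ) : Compat p fun _ F _ => CharP F p :=
  fun F _ h => charP_UF _ F p h

theorem compat_zero : Compat 0 fun N F _ => ringChar F = 0 ∨ N ≤ ringChar F :=
  fun F _ h => charP_zero_UF _ F Nat.hyperfilter_le_atTop h

theorem mono_zero (M N : ℕ) (F : Type) [Field F] (h : M ≤ N)
    (hN : ringChar F = 0 ∨ N ≤ ringChar F) : ringChar F = 0 ∨ M ≤ ringChar F :=
  hN.imp id h.trans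

end Pool.Agent.L7h86.UP
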