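import Mathlib

/-!
# Ultraproducts of fields and of finite-dimensional algebras
-/

set_option autoImplicit false

namespace Pool.Agent.L7h86.UP

open Filter

section null

variable (U : Ultrafilter ℕ) (A : ℕ → Type) [∀ n, CommRing (A n)]

/-- the sequences which vanish almost everywhere -/
def Null : Ideal (∀ n, A n) where
  carrier := {f | ∀ᶠ n in (U : Filter ℕ), f n = 0}
  add_mem' := by
    intro f g hf hg
    filter_upwards [hf, hg] with n h1 h2
    rw [Pi.add_apply, h1, h2, add_zero]
  zero_mem' := by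
    simp
  smul_mem' := by
    intro c f hf
    filter_upwards [hf] with n h1
    simp [h1]

theorem mem_Null {f : ∀ n, A n} : f ∈ Null U A ↔ ∀ᶠ n in (U : Filter ℕ), f n = 0 := Iff.rfl

/-- the ultraproduct of rings -/
def UM : Type := (∀ n, A n) ⧸ Null U A

noncomputable instance : CommRing (UM U A) := inferInstanceAs (CommRing ((∀ n, A n) ⧸ Null U A))

/-- the class of a sequence -/
noncomputable def ua : (∀ n, A n) →+* UM U A := Ideal.Quotient.mk (Null U A)

theorem ua_eq {f g : ∀ n, A n} : ua U A f = ua U A g ↔ ∀ᶠ n in (U : Filter ℕ), f n = g n := by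
  unfold ua
  have h : (Ideal.Quotient.mk (Null U A) f = Ideal.Quotient.mk (Null U A) g) ↔ _ :=
    Ideal.Quotient.eq
  refine Iff.trans h ?_
  rw [mem_Null]
  simp [sub_eq_zero]

theorem ua_surj (z : UM U A) : ∃ f, ua U A f = z := Ideal.Quotient.mk_surjective z

end null

section field

variable (U : Ultrafilter ℕ) (F : ℕ → Type) [∀ n, Field (F n)]

instance Null_maximal : (Null U F).IsMaximal := by
  rw [Ideal.isMaximal_iff]
  refine ⟨?_, ?_⟩
  · rw [mem_Null]
    intro h
    obtain ⟨n, hn⟩ := h.exists
    exact one_ne_zero hn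
  · intro J f hIJ hf hfJ
    have h1 : ∀ᶠ n in (U : Filter ℕ), ¬ f n = 0 := by
      rw [Ultrafilter.eventually_not]
      exact hf
    have h2 : (1 : ∀ n, F n) - (fun n => (f n)⁻¹) * f ∈ Null U F := by
      rw [mem_Null]
      filter_upwards [h1] with n hn
      simp [hn]
    have h3 := J.add_mem (hIJ h2) (J.mul_mem_left (fun n => (f n)⁻¹) hfJ)
    simpa using h3

/-- the ultraproduct of fields -/
def UF : Type := (∀ n, F n) ⧸ Null U F

noncomputable instance : Field (UF U F) := Ideal.Quotient.field (Null U F)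

/-- the class of a sequence -/
noncomputable def uf : (∀ n, F n) →+* UF U F := Ideal.Quotient.mk (Null U F)

theorem uf_eq {f g : ∀ n, F n} : uf U F f = uf U F g ↔ ∀ᶠ n in (U : Filter ℕ), f n = g n := by
  unfold uf
  have h : (Ideal.Quotient.mk (Null U F) f = Ideal.Quotient.mk (Null U F) g) ↔ _ :=
    Ideal.Quotient.eq
  refine Iff.trans h ?_
  rw [mem_Null]
  simp [sub_eq_zero]

theorem uf_surj (z : UF U F) : ∃ f, uf U F f = z := Ideal.Quotient.mk_surjective z

theorem monic_root {F : Type} [Field F] [IsAlgClosed F] (n : ℕ) (hn : n ≠ 0) (c : ℕ → F) :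
    ∃ z : F, z ^ n + ∑ i ∈ Finset.range n, c i * z ^ i = 0 := by
  have hdeg : (∑ i ∈ Finset.range n, Polynomial.C (c i) * Polynomial.X ^ i :
      Polynomial F).degree < n := by
    rw [Polynomial.degree_lt_iff_coeff_zero]
    intro m hm
    rw [Polynomial.finsetSum_coeff]
    refine Finset.sum_eq_zero fun i hi => ?_
    rw [Polynomial.coeff_C_mul_X_pow, if_neg]
    have := Finset.mem_range.1 hi
    omega
  have hd : (Polynomial.X ^ n + ∑ i ∈ Finset.range n, Polynomial.C (c i) * Polynomial.X ^ i :
      Polynomial F).degree = n := by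
    rw [Polynomial.degree_add_eq_left_of_degree_lt (by rwa [Polynomial.degree_X_pow]),
      Polynomial.degree_X_pow]
  obtain ⟨z, hz⟩ := IsAlgClosed.exists_root
    (Polynomial.X ^ n + ∑ i ∈ Finset.range n, Polynomial.C (c i) * Polynomial.X ^ i :
      Polynomial F) (by rw [hd]; exact_mod_cast hn)
  refine ⟨z, ?_⟩
  rw [Polynomial.IsRoot.def, Polynomial.eval_add, Polynomial.eval_pow, Polynomial.eval_X,
    Polynomial.eval_finsetSum] at hz
  simpa using hz

instance closed_UF [∀ n, IsAlgClosed (F n)] : IsAlgClosed (UF U F) := by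
  apply IsAlgClosed.of_exists_root
  intro f hf hirr
  have hn : f.natDegree ≠ 0 := hirr.natDegree_pos.ne'
  choose c hc using fun i => uf_surj U F (f.coeff i)
  choose z hz using fun n : ℕ => monic_root (F := F n) f.natDegree hn (fun i => c i n)
  have hzz : (z : ∀ n, F n) ^ f.natDegree +
      ∑ i ∈ Finset.range f.natDegree, c i * (z : ∀ n, F n) ^ i = 0 := by
    funext n
    rw [Pi.add_apply, Finset.sum_apply]
    exact hz n
  refine ⟨uf U F z, ?_⟩
  rw [Polynomial.eval_eq_sum_range, Finset.sum_range_succ, hf.coeff_natDegree, one_mul]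
  have h1 := congrArg (uf U F) hzz
  rw [map_add, map_sum, map_zero, map_pow] at h1
  rw [← h1, add_comm]
  congr 1
  refine Finset.sum_congr rfl fun i _ => ?_
  rw [map_mul, map_pow, hc]

theorem cast_eq_zero (x : ℕ) : (x : UF U F) = 0 ↔ ∀ᶠ n in (U : Filter ℕ), (x : F n) = 0 := by
  have h1 : (x : UF U F) = uf U F (x : ∀ n, F n) := (map_natCast _ x).symm
  rw [h1, ← map_zero (uf U F), uf_eq]
  rfl

theorem charP_UF (p : ℕ) (h : ∀ n, CharP (F n) p) : CharP (UF U F) p := by
  refine ⟨fun x => ?_⟩
  rw [cast_eq_zero]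
  constructor
  · intro hx
    obtain ⟨n, hn⟩ := hx.exists
    exact (CharP.cast_eq_zero_iff (F n) p x).1 hn
  · intro hx
    exact Eventually.of_forall fun n => (CharP.cast_eq_zero_iff (F n) p x).2 hx

theorem charP_zero_UF (hU : (U : Filter ℕ) ≤ atTop)
    (h : ∀ n, ringChar (F n) = 0 ∨ n ≤ ringChar (F n)) : CharP (UF U F) 0 := by
  refine ⟨fun x => ?_⟩
  rw [cast_eq_zero, zero_dvd_iff]
  constructor
  · intro hx
    have h1 : ∀ᶠ n in (U : Filter ℕ), x < n := hU (eventually_gt_atTop x)
    obtain ⟨n, hn, hn'⟩ := (hx.and h1).exists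
    have h2 : ringChar (F n) ∣ x := (ringChar.spec (F n) x).1 hn
    rcases h n with h3 | h3
    · rw [h3, zero_dvd_iff] at h2
      exact h2
    · by_contra hx0
      have := Nat.le_of_dvd (Nat.pos_of_ne_zero hx0) h2
      omega
  · rintro rfl
    exact Eventually.of_forall fun n => Nat.cast_zero

end field

section algebra

variable (U : Ultrafilter ℕ) (F : ℕ → Type) [∀ n, Field (F n)] (A : ℕ → Type)
  [∀ n, CommRing (A n)] [∀ n, Algebra (F n) (A n)]

/-- the structure map of the product -/
noncomputable def am : (∀ n, F n) →+* (∀ n, A n) :=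
  RingHom.pi fun n => (algebraMap (F n) (A n)).comp (Pi.evalRingHom F n)

/-- the structure map of the ultraproduct -/
noncomputable def uam : UF U F →+* UM U A :=
  Ideal.Quotient.lift (Null U F) ((ua U A).comp (am F A)) (by
    intro f hf
    rw [RingHom.comp_apply, ← map_zero (ua U A), ua_eq]
    filter_upwards [hf] with n hn
    change algebraMap (F n) (A n) (f n) = 0
    rw [hn, map_zero])

noncomputable instance : Algebra (UF U F) (UM U A) := (uam U F A).toAlgebra

theorem algebraMap_uf (f : ∀ n, F n) : algebraMap (UF U F) (UM U A) (uf U F f) =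
    ua U A fun n => algebraMap (F n) (A n) (f n) := rfl

theorem uf_smul (f : ∀ n, F n) (x : ∀ n, A n) :
    uf U F f • ua U A x = ua U A fun n => f n • x n := by
  rw [Algebra.smul_def, algebraMap_uf, ← map_mul]
  congr 1
  funext n
  rw [Algebra.smul_def]
  rfl

variable {F A} {d : ℕ} (c : ∀ n, Module.Basis (Fin d) (F n) (A n))

theorem sum_uf (f : Fin d → ∀ n, F n) : ∑ i, uf U F (f i) • ua U A (fun n => c n i) =
    ua U A fun n => ∑ i, f i n • c n i := by
  simp only [uf_smul]
  rw [← map_sum]
  congr 1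
  funext n
  rw [Finset.sum_apply]

/-- the basis of the ultraproduct -/
noncomputable def ub : Module.Basis (Fin d) (UF U F) (UM U A) :=
  Module.Basis.mk (v := fun i => ua U A fun n => c n i) (by
    rw [Fintype.linearIndependent_iff]
    intro g hg i
    choose f hf using fun i => uf_surj U F (g i)
    have h1 : ∑ i, g i • ua U A (fun n => c n i) = ua U A fun n => ∑ i, f i n • c n i := by
      rw [← sum_uf]
      simp only [hf]
    rw [h1, ← map_zero (ua U A), ua_eq] at hg
    rw [← hf, ← map_zero (uf U F), uf_eq]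
    filter_upwards [hg] with n hn
    exact Fintype.linearIndependent_iff.1 (c n).linearIndependent (fun i => f i n) hn i) (by
    rintro x -
    obtain ⟨y, rfl⟩ := ua_surj U A x
    have h1 : ua U A y = ∑ i, uf U F (fun n => (c n).repr (y n) i) • ua U A (fun n => c n i) := by
      rw [sum_uf]
      congr 1
      funext n
      exact ((c n).sum_repr (y n)).symm
    rw [h1]
    exact Submodule.sum_mem _ fun i _ => Submodule.smul_mem _ _ (Submodule.subset_span ⟨i, rfl⟩))

theorem ub_apply (i : Fin d) : ub U c i = ua U A fun n => c n i := by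
  unfold ub
  rw [Module.Basis.mk_apply]

theorem ub_repr (x : ∀ n, A n) (i : Fin d) :
    (ub U c).repr (ua U A x) i = uf U F fun n => (c n).repr (x n) i := by
  have h1 : ua U A x = ∑ i, uf U F (fun n => (c n).repr (x n) i) • ub U c i := by
    simp only [ub_apply]
    rw [sum_uf]
    congr 1
    funext n
    exact ((c n).sum_repr (x n)).symm
  rw [h1, (ub U c).repr_sum_self]

end algebra

end Pool.Agent.L7h86.UP
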