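import Pool.Agent.L7h86.UP.Compact
import Pool.Agent.R566.CV.Tow

/-!
# Uniform bounds for all schemes of given degree
-/

set_option autoImplicit false

namespace Pool.Agent.L7h86.UP

open Pool.Agent.H826R3.SM Pool.Agent.TH671.DU Pool.Agent.N86.SQ Pool.Agent.L7h86.GF
open Pool.Agent.N823 Pool.Agent.L7h86.PS Pool.Agent.R566.CV
open MvPolynomial Filter
open scoped Topology

section bound

variable {k : Type} [Field k] [IsAlgClosed k] (A : Type) [CommRing A] [Algebra k A]
  [Module.Finite k A] [Nontrivial A]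

/-- a uniform exponential bound -/
theorem mdeg_pow_le_dd (n : ℕ) : mdeg k (Pow k A n) ≤
    (Module.finrank k A ^ Module.finrank k A) ^ n := by
  let b := Module.finBasis k A
  let g : k →ₐ[k] A := Algebra.ofId k A
  let y : Fin (Module.finrank k A) → A := b
  have hgen : tow g y (Module.finrank k A) = ⊤ := by
    rw [eq_top_iff]
    rintro x -
    rw [← b.sum_repr x]
    refine Subalgebra.sum_mem _ fun i _ => Subalgebra.smul_mem _ ?_ _
    exact Algebra.subset_adjoin (Or.inr ⟨i, i.2, rfl⟩)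
  have h1 := mdeg_tower g y (fun i => (minpoly k (y i)).natDegree) (fun i =>
    ⟨(minpoly k (y i)).map (algebraMap k (tow g y i)),
      (minpoly.monic (Algebra.IsIntegral.isIntegral (y i))).map _,
      (minpoly.monic (Algebra.IsIntegral.isIntegral (y i))).natDegree_map _, by
        rw [Polynomial.aeval_map_algebraMap, minpoly.aeval]⟩) hgen n
  have h2 : mdeg k (Pow k k n) ≤ 1 := by
    have := mdeg_le (Pool.Agent.Y232.EM.pow k k 1 n fam_self)
    rwa [one_pow] at this
  have h3 : ∏ i : Fin (Module.finrank k A), (minpoly k (y i)).natDegree ≤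
      Module.finrank k A ^ Module.finrank k A := by
    refine (Finset.prod_le_prod (fun _ _ => Nat.zero_le _) fun i _ =>
      minpoly.natDegree_le (A := k) (y i)).trans ?_
    rw [Finset.prod_const, Finset.card_univ, Fintype.card_fin]
  calc mdeg k (Pow k A n) ≤ _ := h1
    _ ≤ (Module.finrank k A ^ Module.finrank k A) ^ n * 1 :=
        Nat.mul_le_mul (Nat.pow_le_pow_left h3 n) h2
    _ = _ := mul_one _

/-- a bound for one power gives a bound for all powers -/
theorem mdeg_pow_of_one {m N : ℕ} (hm : 1 ≤ m) (hmN : m ≤ N) {y : ℝ} (hy : 1 ≤ y)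
    (h : (mdeg k (Pow k A m) : ℝ) ≤ y ^ m) (n : ℕ) : (mdeg k (Pow k A n) : ℝ) ≤
      (((Module.finrank k A ^ Module.finrank k A) ^ N : ℕ) : ℝ) * y ^ n := by
  have hd : 1 ≤ Module.finrank k A ^ Module.finrank k A :=
    Nat.one_le_pow _ _ Module.finrank_pos
  have h0 : mdeg k (Pow k A 0) ≤ 1 := by
    have := mdeg_pow_le_dd (k := k) A 0
    rwa [pow_zero] at this
  have hq : ∀ q, (mdeg k (Pow k A (m * q)) : ℝ) ≤ y ^ (m * q) := by
    intro q
    induction q with
    | zero =>
      rw [mul_zero, pow_zero]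
      exact_mod_cast h0
    | succ q ih =>
      have h3 : (mdeg k (Pow k A (m * (q + 1))) : ℝ) ≤
          mdeg k (Pow k A (m * q)) * mdeg k (Pow k A m) := by
        rw [mul_add, mul_one]
        exact_mod_cast mdeg_pow_add A _ _
      calc (mdeg k (Pow k A (m * (q + 1))) : ℝ) ≤ _ := h3
        _ ≤ y ^ (m * q) * y ^ m := mul_le_mul ih h (Nat.cast_nonneg _) (by positivity)
        _ = y ^ (m * (q + 1)) := by rw [mul_add, mul_one, pow_add]
  have hmod : n % m < m := Nat.mod_lt _ hm
  have hr : mdeg k (Pow k A (n % m)) ≤ (Module.finrank k A ^ Module.finrank k A) ^ N :=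
    (mdeg_pow_le_dd A _).trans (Nat.pow_le_pow_right hd (by omega))
  have hn : m * (n / m) + n % m = n := Nat.div_add_mod n m
  calc (mdeg k (Pow k A n) : ℝ) = mdeg k (Pow k A (m * (n / m) + n % m)) := by rw [hn]
    _ ≤ mdeg k (Pow k A (m * (n / m))) * mdeg k (Pow k A (n % m)) := by
        exact_mod_cast mdeg_pow_add A _ _
    _ ≤ y ^ (m * (n / m)) * (((Module.finrank k A ^ Module.finrank k A) ^ N : ℕ) : ℝ) :=
        mul_le_mul (hq _) (by exact_mod_cast hr) (Nat.cast_nonneg _) (by positivity)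
    _ ≤ y ^ n * (((Module.finrank k A ^ Module.finrank k A) ^ N : ℕ) : ℝ) := by
        refine mul_le_mul_of_nonneg_right (pow_le_pow_right₀ hy (by omega)) (Nat.cast_nonneg _)
    _ = _ := mul_comm _ _

end bound

/-- **Uniform bounds.** -/
theorem uniform {p : ℕ} (𝒦 : ℕ → ∀ (F : Type) [Field F], Prop) (h𝒦 : Compat p 𝒦)
    (hmono : ∀ (M N : ℕ) (F : Type) [Field F], M ≤ N → 𝒦 N F → 𝒦 M F)
    (φ : ℕ → ℝ) (hφ1 : 1 ≤ φ 1) (hφ : ∀ a b, φ a + φ b ≤ φ (a + b))
    (D : ℕ)
    (H : ∀ (K : Type) [Field K] [IsAlgClosed K] [CharP K p] (A : Type) [CommRing A] [Algebra K A]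
      [Module.Finite K A] [IsLocalRing A], Module.finrank K A ≤ D →
        rate K A ≤ φ (Module.finrank K A))
    (η : ℝ) (hη : 0 < η) (n : ℕ) (hn : 1 ≤ n) (hnD : n ≤ D) :
    ∃ (P : ℕ) (C : ℝ), 0 ≤ C ∧ ∀ (F : Type) [Field F] [IsAlgClosed F], 𝒦 P F →
      ∀ (A : Type) [CommRing A] [Algebra F A] [Module.Finite F A] [Nontrivial A],
        Module.finrank F A = n → ∀ m : ℕ, ∃ M : ℕ, (M : ℝ) ≤ C * ((1 + η) * φ n) ^ m ∧
          Fam F (Pow F A m) M := by
  classical
  have hφge : ∀ a, 1 ≤ a → 1 ≤ φ a := by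
    intro a ha
    induction a, ha using Nat.le_induction with
    | base => exact hφ1
    | succ a ha ih =>
      have h1 := hφ a 1
      linarith
  induction n using Nat.strong_induction_on with
  | _ n ih =>
    -- the local case
    have hlocal : ∃ (P : ℕ) (C : ℝ), 0 ≤ C ∧ ∀ (F : Type) [Field F] [IsAlgClosed F], 𝒦 P F →
        ∀ (A : Type) [CommRing A] [Algebra F A] [Module.Finite F A] [IsLocalRing A],
          Module.finrank F A = n → ∀ m : ℕ, ∃ M : ℕ, (M : ℝ) ≤ C * ((1 + η) * φ n) ^ m ∧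
            Fam F (Pow F A m) M := by
      have hn1 := hφge n hn
      obtain ⟨N, hN⟩ := compact 𝒦 h𝒦 n (φ n) (fun K _ _ _ A _ _ _ _ hA => by
        rw [← hA]
        exact H K A (by omega)) ((1 + η) * φ n) (by nlinarith)
      refine ⟨N, (((n ^ n) ^ N : ℕ) : ℝ), Nat.cast_nonneg _, fun F _ _ hF A _ _ _ _ hA m => ?_⟩
      obtain ⟨m₀, h1, h2, h3⟩ := hN F hF A hA
      obtain ⟨E, hE⟩ := exists_fam (k := F) (Pow F A m)
      refine ⟨mdeg F (Pow F A m), ?_, mdeg_spec hE⟩
      have h4 := mdeg_pow_of_one (k := F) A h1 h2 (y := (1 + η) * φ n) (by nlinarith) h3 m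
      rwa [hA] at h4
    obtain ⟨P₀, C₀, hC₀, hloc⟩ := hlocal
    -- the others
    have ih' : ∀ a : ℕ, ∃ (P : ℕ) (C : ℝ), 0 ≤ C ∧ (1 ≤ a → a < n → ∀ (F : Type) [Field F]
        [IsAlgClosed F], 𝒦 P F → ∀ (A : Type) [CommRing A] [Algebra F A] [Module.Finite F A]
          [Nontrivial A], Module.finrank F A = a → ∀ m : ℕ, ∃ M : ℕ,
            (M : ℝ) ≤ C * ((1 + η) * φ a) ^ m ∧ Fam F (Pow F A m) M) := by
      intro a
      by_cases ha : 1 ≤ a ∧ a < n
      · obtain ⟨P, C, hC, h⟩ := ih a ha.2 ha.1 (by omega)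
        exact ⟨P, C, hC, fun _ _ => h⟩
      · exact ⟨0, 0, le_rfl, fun h1 h2 => absurd ⟨h1, h2⟩ ha⟩
    choose P C hC hPC using ih'
    refine ⟨P₀ + ∑ a ∈ Finset.range n, P a, C₀ + ∑ a ∈ Finset.range n, C a * C (n - a), ?_, ?_⟩
    · exact add_nonneg hC₀ (Finset.sum_nonneg fun a _ => mul_nonneg (hC _) (hC _))
    intro F _ _ hF A _ _ _ _ hA m
    have hsum0 : 0 ≤ ∑ a ∈ Finset.range n, C a * C (n - a) :=
      Finset.sum_nonneg fun a _ => mul_nonneg (hC _) (hC _)
    have hpow0 : 0 ≤ ((1 + η) * φ n) ^ m := by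
      have := hφge n hn
      positivity
    by_cases hl : IsLocalRing A
    · obtain ⟨M, h1, h2⟩ := hloc F (hmono _ _ F (Nat.le_add_right _ _) hF) A hA m
      refine ⟨M, h1.trans (mul_le_mul_of_nonneg_right (by linarith) hpow0), h2⟩
    · obtain ⟨B, B', _, _, _, _, hB1, hB2, hB'1, hB'2, ⟨f⟩, hs⟩ := exists_split (k := F) A hl
      have hp1 : 0 < Module.finrank F B := Module.finrank_pos
      have hp2 : 0 < Module.finrank F B' := Module.finrank_pos
      have hlt1 : Module.finrank F B < n := by omega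
      have hlt2 : Module.finrank F B' < n := by omega
      have hPle : ∀ a, a < n → P a ≤ P₀ + ∑ a ∈ Finset.range n, P a := fun a ha =>
        (Finset.single_le_sum (f := P) (fun _ _ => Nat.zero_le _) (Finset.mem_range.2 ha)).trans
          (Nat.le_add_left _ _)
      choose F₁ h₁ h₁' using hPC _ hp1 hlt1 F (hmono _ _ F (hPle _ hlt1) hF) B rfl
      choose F₂ h₂ h₂' using hPC _ hp2 hlt2 F (hmono _ _ F (hPle _ hlt2) hF) B' rfl
      have hx : 0 ≤ (1 + η) * φ (Module.finrank F B) := by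
        have := hφge _ hp1
        positivity
      have hx' : 0 ≤ (1 + η) * φ (Module.finrank F B') := by
        have := hφge _ hp2
        positivity
      refine ⟨GG F₁ F₂ m 0 0, ?_, ?_⟩
      · have h3 := GG_le (hC _) hx h₁ h₂ m 0 0
        rw [pow_zero, pow_zero, mul_one, mul_one] at h3
        refine h3.trans (mul_le_mul ?_ ?_ (by positivity) (by linarith))
        · have h4 := Finset.single_le_sum (f := fun a => C a * C (n - a))
            (fun a _ => mul_nonneg (hC _) (hC _)) (Finset.mem_range.2 hlt1)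
          have h5 : n - Module.finrank F B = Module.finrank F B' := by omega
          rw [h5] at h4
          linarith
        · refine pow_le_pow_left₀ (add_nonneg hx hx') ?_ m
          have h6 := hφ (Module.finrank F B) (Module.finrank F B')
          rw [← hs, hA] at h6
          nlinarith
      · have h7 : Fam F (Pow F (B × B') m) (GG F₁ F₂ m 0 0) :=
          fam_union F₁ F₂ h₁' h₂' m 0 0 (Pow F (B × B') m) (fun a => a.elim0)
            (fun a => a.elim0) (fun i => sg F (B × B') i) fun S _ _ h => pow_eq_top S h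
        refine h7.of_pow (fun i => (sg F A i).comp f.symm.toAlgHom) fun S hS =>
          pow_eq_top S fun i b => ?_
        have h8 := hS i (f b)
        change sg F A i (f.symm (f b)) ∈ S at h8
        rwa [f.symm_apply_apply] at h8

end Pool.Agent.L7h86.UP
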